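import Pool.Agent.Helper51.ET.Main

set_option autoImplicit false

namespace Pool.Agent.Results.MP_01a296_lc.DefinableGtHenselian

open Pool.Agent.Helper51.ET

/-- There is a countable field `K` of characteristic zero with a gt-henselian topology that has
a basis of definable subsets of `K`, such that the étale-open topology of `K` is not a field
topology. -/
theorem result : ∃ (K : Type) (_ : Field K) (_ : CharZero K) (_ : Countable K)
    (τ : TopologicalSpace K), IsGtHenselian K τ ∧
      (∃ B : Set (Set K), @TopologicalSpace.IsTopologicalBasis K τ B ∧
        ∀ U ∈ B, IsDefinable K U) ∧
      ¬ EtaleOpenIsFieldTopology K := main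

end Pool.Agent.Results.MP_01a296_lc.DefinableGtHenselian
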